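import Mathlib
import Pool.Agent.X286.Win.Gen
import Pool.Agent.Results.MP_f5d5f4_nt.UniformInFamilies

/-!
# No congruences with a given elliptic curve, for the parameters in windows of all one-parameter families over `ℚ`

The definitions `curve`, `galois`, `SameDivisionField`, `jInvariant` and `TwoPoles` are those of the starting file
`MP_f5d5f4_nt.UniformInFamilies` (for `K = L = ℚ`).
-/

set_option autoImplicit false

namespace Pool.Agent.Results.MP_a60a76_nt.FamiliesInWindows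

open MeasureTheory Filter Topology Polynomial Height
open Pool.Agent.Results.MP_f5d5f4_nt.UniformInFamilies (Companion TwoPoles SameDivisionField
  jInvariant)

/-- the exponent of convergence of the sequence `v` is at most `τ` -/
def ExpLe (v : ℕ → ℝ) (τ : ℝ) : Prop := ∀ t : ℝ, τ < t → Summable (fun n : ℕ => (v n) ^ (-t))

/-- No elliptic curve over `ℚ` with invariant `j` has, for any prime `p ≥ N`, the same `p`-division field as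
`y ^ 2 = x ^ 3 + A₀ x + B₀`. -/
def NoCompanion (N : ℕ) (A₀ B₀ j : ℚ) : Prop :=
  ∀ A B : ℚ, 4 * A ^ 3 + 27 * B ^ 2 ≠ 0 → jInvariant A B = j → ∀ p : ℕ, p.Prime → N ≤ p →
    ¬ SameDivisionField p A B A₀ B₀

/-- only primes dividing `d` divide the denominator of `t` -/
def IntegralAway (d : ℕ) (t : ℚ) : Prop := ∃ k : ℕ, IsIntegral ℤ ((d : ℚ) ^ k * t)

/-- the exceptional parameters -/
def Ex (F G : ℚ[X]) (N : ℕ) (A₀ B₀ : ℚ) : Set ℚ :=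
  {t | G.eval t ≠ 0 ∧ ¬ NoCompanion N A₀ B₀ (F.eval t / G.eval t)}

theorem exc {N : ℕ} {A₀ B₀ j : ℚ} (h : ¬ NoCompanion N A₀ B₀ j) : Companion N A₀ B₀ j := by
  unfold NoCompanion at h
  push Not at h
  obtain ⟨A, B, h1, h2, p, h3, h4, h5⟩ := h
  exact ⟨A, B, h1, h2, p, h3, h4, h5⟩

theorem eval_map_self (F : ℚ[X]) (t : ℚ) : (F.map (algebraMap ℚ ℚ)).eval t = F.eval t := by
  rw [Algebra.algebraMap_self, Polynomial.map_id]

/-- from `C (X H) ^ ε` to a constant times `X ^ ε` -/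
theorem bound {C X H ε c : ℝ} (hX : 1 ≤ X) (hH : 0 ≤ H) (h : c ≤ C * (X * H) ^ ε) :
    c ≤ (C * H ^ ε) * X ^ ε := by
  refine h.trans (le_of_eq ?_)
  rw [Real.mul_rpow (by linarith) hH]
  ring

theorem sparse_two {F G : ℚ[X]} (h1 : IsCoprime F G) (h2 : G ≠ 0) (h3 : TwoPoles ℚ F G) {ε : ℝ}
    (hε : 0 < ε) : ∃ N : ℕ, ∀ A₀ B₀ : ℚ, 4 * A₀ ^ 3 + 27 * B₀ ^ 2 ≠ 0 →
      Pool.Agent.X286.Win.Sparse (Ex F G N A₀ B₀) (fun t => mulHeight₁ t) ε := by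
  obtain ⟨N, C, h⟩ := MP_f5d5f4_nt.UniformInFamilies.result ℚ F G h1 h2 h3 1 ε hε
  refine ⟨N, fun A₀ B₀ h0 => Pool.Agent.X286.Win.sparse_of_bound
    (C := C * (mulHeight₁ (jInvariant A₀ B₀)) ^ ε) le_rfl fun X hX => ?_⟩
  obtain ⟨e1, e2⟩ := h ℚ (by rw [Module.finrank_self]) A₀ B₀ h0 X hX
  have hsub : {t | t ∈ Ex F G N A₀ B₀ ∧ mulHeight₁ t ≤ X} ⊆
      MP_f5d5f4_nt.UniformInFamilies.Exceptional ℚ F G ℚ N A₀ B₀ X := by
    rintro t ⟨⟨e3, e4⟩, e5⟩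
    refine ⟨e5, ?_, ?_⟩
    · rw [eval_map_self]
      exact e3
    · rw [eval_map_self, eval_map_self]
      exact exc e4
  refine ⟨e1.subset hsub, bound hX (zero_le_one.trans (one_le_mulHeight₁ _)) ?_⟩
  exact (by exact_mod_cast Set.ncard_le_ncard hsub e1 : _ ≤ _).trans e2

theorem sparse_int {F G : ℚ[X]} (h1 : IsCoprime F G) (h2 : 0 < G.natDegree) {d : ℕ} (hd : 0 < d)
    {ε : ℝ} (hε : 0 < ε) : ∃ N : ℕ, ∀ A₀ B₀ : ℚ, 4 * A₀ ^ 3 + 27 * B₀ ^ 2 ≠ 0 →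
      Pool.Agent.X286.Win.Sparse {t | t ∈ Ex F G N A₀ B₀ ∧ IntegralAway d t}
        (fun t => mulHeight₁ t) ε := by
  obtain ⟨N, C, -, h⟩ := Pool.Agent.Y673.DK.integral_mainJ ℚ 6 (by norm_num) F G h1 h2 d hd 1 hε
  refine ⟨max N (13 + 8 * 1), fun A₀ B₀ h0 => Pool.Agent.X286.Win.sparse_of_bound
    (C := C * (mulHeight₁ (jInvariant A₀ B₀)) ^ ε) le_rfl fun X hX => ?_⟩
  have key : ({t | t ∈ {t | t ∈ Ex F G (max N (13 + 8 * 1)) A₀ B₀ ∧ IntegralAway d t} ∧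
      mulHeight₁ t ≤ X}).Finite ∧ ((({t | t ∈ {t | t ∈ Ex F G (max N (13 + 8 * 1)) A₀ B₀ ∧
        IntegralAway d t} ∧ mulHeight₁ t ≤ X}).ncard : ℕ) : ℝ) ≤
          C * (X * mulHeight₁ (jInvariant A₀ B₀)) ^ ε := by
    refine Pool.Agent.Y673.Cnt.ncard_le_of _ _ fun E hE =>
      h ℚ (by rw [Module.finrank_self]) (jInvariant A₀ B₀) X hX E fun t ht => ?_
    obtain ⟨⟨⟨e1, e2⟩, e3⟩, e4⟩ := hE (Finset.mem_coe.2 ht)
    obtain ⟨A, B, g1, g2, p, g3, g4, g5⟩ := exc e2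
    have g6 : Pool.Agent.Y673.DK.PJ ℚ 6 (jInvariant A₀ B₀) (max N (13 + 8 * 1))
        (jInvariant A B) :=
      Pool.Agent.Y673.FM.pj_of (by rw [Module.finrank_self]) (le_max_right _ _) A B A₀ B₀ g1 h0 g3
        g4 g5
    obtain ⟨q, h6, h7, h8⟩ := g6
    refine ⟨e3, e4, ?_, ?_⟩
    · rw [eval_map_self]
      exact e1
    · rw [eval_map_self, eval_map_self, ← g2]
      exact ⟨q, h6, (le_max_left _ _).trans h7, h8⟩
  exact ⟨key.1, bound hX (zero_le_one.trans (one_le_mulHeight₁ _)) key.2⟩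

/-- Let `v n ≥ 1` have exponent of convergence at most `τ ≥ 0`, and let `θ < 1`. There is ONE set `E` of Hausdorff
dimension at most `τ / (1 - θ)` such that for all `a > 0` outside `E` and ALL rational functions `j = F/G` over `ℚ`
(`F`, `G` coprime):
(1) if `j` has two different poles on the projective line, there is `N` such that for EVERY elliptic curve `E₀` over
`ℚ`, for all but finitely many `n` and ALL rational `t` with `G(t) ≠ 0` and `|H(t) - a v n| ≤ (v n) ^ θ`: no elliptic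
curve over `ℚ` with invariant `j(t)` has the same `p`-division field as `E₀` for any prime `p ≥ N`; in particular none
is `p`-congruent to `E₀`;
(2) if `j` has a finite pole, this holds for all `t` with a denominator composed of the primes dividing `d` (`N`
depends on `d`), for every `d`, in particular for integers `t`.
The powers of `n + 1` and the geometric progressions are examples of `v`. -/
theorem result :
    (∀ (v : ℕ → ℝ) (τ θ : ℝ), (∀ n, 1 ≤ v n) → 0 ≤ τ → ExpLe v τ → θ < 1 →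
      ∃ E : Set ℝ, dimH E ≤ ENNReal.ofReal (τ / (1 - θ)) ∧
        ∀ a : ℝ, 0 < a → a ∉ E → ∀ F G : ℚ[X], IsCoprime F G → G ≠ 0 →
          (TwoPoles ℚ F G → ∃ N : ℕ, ∀ A₀ B₀ : ℚ, 4 * A₀ ^ 3 + 27 * B₀ ^ 2 ≠ 0 →
            ∃ n₀ : ℕ, ∀ n : ℕ, n₀ ≤ n → ∀ t : ℚ, G.eval t ≠ 0 →
              |mulHeight₁ t - a * v n| ≤ (v n) ^ θ → NoCompanion N A₀ B₀ (F.eval t / G.eval t)) ∧
          (0 < G.natDegree → ∀ d : ℕ, 0 < d → ∃ N : ℕ, ∀ A₀ B₀ : ℚ,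
            4 * A₀ ^ 3 + 27 * B₀ ^ 2 ≠ 0 → ∃ n₀ : ℕ, ∀ n : ℕ, n₀ ≤ n → ∀ t : ℚ,
              IntegralAway d t → G.eval t ≠ 0 → |mulHeight₁ t - a * v n| ≤ (v n) ^ θ →
                NoCompanion N A₀ B₀ (F.eval t / G.eval t))) ∧
    (∀ b : ℝ, 0 < b → ExpLe (fun n : ℕ => ((n : ℝ) + 1) ^ b) (1 / b)) ∧
    (∀ b : ℝ, 1 < b → ExpLe (fun n : ℕ => b ^ n) 0) := by
  refine ⟨?_, fun b hb => Pool.Agent.Y854.GM.expLe_pow b hb,
    fun b hb => Pool.Agent.Y854.GM.expLe_geom b hb⟩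
  intro v τ θ hv hτ hE hθ
  have hs0 : ∀ k : ℕ, (0 : ℝ) ≤ 1 / ((k : ℝ) + 1) := fun k => by positivity
  have hs : Tendsto (fun k : ℕ => 1 / ((k : ℝ) + 1)) atTop (𝓝 0) :=
    tendsto_one_div_add_atTop_nhds_zero_nat
  have hc : Countable ℚ[X] := by
    rw [← Cardinal.mk_le_aleph0_iff]
    exact Polynomial.cardinalMk_le_max.trans (max_le Cardinal.mk_le_aleph0 le_rfl)
  -- rational parameters
  have hA : ∀ (k : ℕ) (i : {q : ℚ[X] × ℚ[X] // IsCoprime q.1 q.2 ∧ q.2 ≠ 0 ∧ TwoPoles ℚ q.1 q.2}),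
      ∃ N : ℕ, ∀ A₀ B₀ : ℚ, 4 * A₀ ^ 3 + 27 * B₀ ^ 2 ≠ 0 →
        Pool.Agent.X286.Win.Sparse (Ex i.1.1 i.1.2 N A₀ B₀) (fun t => mulHeight₁ t)
        (1 / ((k : ℝ) + 1)) := fun k i => sparse_two i.2.1 i.2.2.1 i.2.2.2 (by positivity)
  choose NA hNA using hA
  obtain ⟨E₁, h1, h2⟩ := Pool.Agent.X286.Win.some_member
    (ι := {q : ℚ[X] × ℚ[X] // IsCoprime q.1 q.2 ∧ q.2 ≠ 0 ∧ TwoPoles ℚ q.1 q.2} ×
      {c : ℚ × ℚ // 4 * c.1 ^ 3 + 27 * c.2 ^ 2 ≠ 0})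
    (fun k i => Ex i.1.1.1 i.1.1.2 (NA k i.1) i.2.1.1 i.2.1.2)
    (fun _ => fun t : ℚ => mulHeight₁ t) hs0 hs (fun k i => hNA k i.1 _ _ i.2.2) hv hτ hE hθ
  -- integral parameters
  have hB : ∀ (k : ℕ) (i : {q : (ℚ[X] × ℚ[X]) × ℕ // IsCoprime q.1.1 q.1.2 ∧ 0 < q.1.2.natDegree ∧
      0 < q.2}), ∃ N : ℕ, ∀ A₀ B₀ : ℚ, 4 * A₀ ^ 3 + 27 * B₀ ^ 2 ≠ 0 →
        Pool.Agent.X286.Win.Sparse {t | t ∈ Ex i.1.1.1 i.1.1.2 N A₀ B₀ ∧ IntegralAway i.1.2 t}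
        (fun t => mulHeight₁ t) (1 / ((k : ℝ) + 1)) :=
    fun k i => sparse_int i.2.1 i.2.2.1 i.2.2.2 (by positivity)
  choose NB hNB using hB
  obtain ⟨E₂, h3, h4⟩ := Pool.Agent.X286.Win.some_member
    (ι := {q : (ℚ[X] × ℚ[X]) × ℕ // IsCoprime q.1.1 q.1.2 ∧ 0 < q.1.2.natDegree ∧ 0 < q.2} ×
      {c : ℚ × ℚ // 4 * c.1 ^ 3 + 27 * c.2 ^ 2 ≠ 0})
    (fun k i => {t | t ∈ Ex i.1.1.1.1 i.1.1.1.2 (NB k i.1) i.2.1.1 i.2.1.2 ∧
      IntegralAway i.1.1.2 t})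
    (fun _ => fun t : ℚ => mulHeight₁ t) hs0 hs (fun k i => hNB k i.1 _ _ i.2.2) hv hτ hE hθ
  refine ⟨E₁ ∪ E₂, ?_, fun a ha haE F G hFG hG => ⟨fun hT => ?_, fun hd d hd0 => ?_⟩⟩
  · rw [dimH_union]
    exact max_le h1 h3
  · obtain ⟨k, hk⟩ := h2 a ha fun h => haE (Or.inl h)
    refine ⟨NA k ⟨(F, G), hFG, hG, hT⟩, fun A₀ B₀ h0 => ?_⟩
    obtain ⟨n₀, hn⟩ := hk (⟨(F, G), hFG, hG, hT⟩, ⟨(A₀, B₀), h0⟩)
    refine ⟨n₀, fun n hn1 t ht hw => ?_⟩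
    by_contra hcon
    exact absurd (hn n hn1 t ⟨ht, hcon⟩) (not_lt.2 hw)
  · obtain ⟨k, hk⟩ := h4 a ha fun h => haE (Or.inr h)
    refine ⟨NB k ⟨((F, G), d), hFG, hd, hd0⟩, fun A₀ B₀ h0 => ?_⟩
    obtain ⟨n₀, hn⟩ := hk (⟨((F, G), d), hFG, hd, hd0⟩, ⟨(A₀, B₀), h0⟩)
    refine ⟨n₀, fun n hn1 t hi ht hw => ?_⟩
    by_contra hcon
    exact absurd (hn n hn1 t ⟨⟨ht, hcon⟩, hi⟩) (not_lt.2 hw)

end Pool.Agent.Results.MP_a60a76_nt.FamiliesInWindows
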