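import Pool.Agent.Results.MP_a60a76_nt.InvariantWindows
import Pool.Agent.X123.ML.Base

/-!
# The invariants of the curves congruent to a given curve stay away from almost all real numbers

Let `P ≥ 17` and `τ > 0`, and let `s` be any map from the rational numbers to a metric space `X`,
for example the embedding into the real or the `q`-adic numbers. For all `y` in `X` outside a set of
Hausdorff dimension at most `(7 / (2 P)) / τ` and EVERY elliptic curve `E₀` over `ℚ`, only finitely many
rational numbers `j` with `|y - j| ≤ H(j) ^ (-τ)` are invariants of elliptic curves which are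
`p`-congruent to `E₀` for some prime `p ≥ P`. For `P = 19`, all primes `p > 17` of the conjecture, this
concerns all real `y` outside a set of measure zero if `τ > 7 / 38`, so for example if `τ = 1 / 5`, and
the dimension tends to zero for large `τ` or large `P`; every real `y` is approximated to
within `H(j) ^ (-2)` by infinitely many invariants `j`.
-/

set_option autoImplicit false

open scoped ENNReal

namespace Pool.Agent.Results.MP_a60a76_nt.InvariantsNearTargets

open InvariantWindows (Exc ht count jInvariant Congruent)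
open Pool.Agent.X123.ML

/-- **Theorem.** Let `P ≥ 17`, `τ > 0` and let `s : ℚ → X` be a map to a metric space. There is a set
`E ⊆ X` of Hausdorff dimension at most `(7 / (2 P)) / τ` such that for each `y` outside `E` and EVERY
elliptic curve `E₀ : y² = x³ + A₀x + B₀` over `ℚ`, `A₀`, `B₀` integers, there is `T` with the following
property. No elliptic curve `y² = x³ + Ax + B` over `ℚ` whose invariant `j` has height greater than `T`
and satisfies `|y - s(j)| ≤ H(j) ^ (-τ)` is `p`-congruent to `E₀` for a prime `p ≥ P`. -/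
theorem result (P : ℕ) (hP : 17 ≤ P) (τ : ℝ) (hτ : 0 < τ) (X : Type) [MetricSpace X] (s : ℚ → X) :
    ∃ E : Set X, dimH E ≤ ENNReal.ofReal (7 / (2 * P) / τ) ∧
      ∀ y : X, y ∉ E → ∀ A₀ B₀ : ℤ, 4 * A₀ ^ 3 + 27 * B₀ ^ 2 ≠ 0 → ∃ T : ℝ,
        ∀ A B : ℚ, 4 * A ^ 3 + 27 * B ^ 2 ≠ 0 → T < (ht (jInvariant A B) : ℝ) →
          dist y (s (jInvariant A B)) ≤ (ht (jInvariant A B) : ℝ) ^ (-τ) →
            ∀ p : ℕ, p.Prime → P ≤ p → ¬ Congruent p A B (A₀ : ℚ) (B₀ : ℚ) := by
  classical
  have hpos : ∀ j : ℚ, (1 : ℝ) ≤ (ht j : ℝ) := fun j => by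
    have h1 : 1 ≤ ht j := le_trans (Nat.one_le_iff_ne_zero.2 j.den_nz) (le_max_right _ _)
    exact_mod_cast h1
  obtain ⟨G, hG⟩ : ∃ G : ℤ × ℤ → Set X, ∀ e, G e =
      if 4 * e.1 ^ 3 + 27 * e.2 ^ 2 ≠ 0 then
        {y : X | {x : ℚ | x ∈ Exc P e.1 e.2 ∧
          dist y (s x) ≤ Real.exp (-(τ * Real.log (ht x : ℝ)))}.Infinite}
      else ∅ := ⟨_, fun _ => rfl⟩
  have hdim : ∀ e, dimH (G e) ≤ ENNReal.ofReal (7 / (2 * P) / τ) := by
    intro e
    rw [hG]
    split_ifs with he
    · have hcnt : Cnt (Exc P e.1 e.2) (fun x => Real.log (ht x : ℝ)) (7 / (2 * P)) := by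
        intro δ hδ
        obtain ⟨C, hC⟩ := count P hP e.1 e.2 he δ hδ
        refine ⟨C, fun t htt => ?_⟩
        have hX : (1 : ℝ) ≤ Real.exp t := Real.one_le_exp htt
        obtain ⟨h1, h2⟩ := hC (Real.exp t) hX
        have hset : {x : ℚ | x ∈ Exc P e.1 e.2 ∧ Real.log (ht x : ℝ) ≤ t} =
            {x : ℚ | x ∈ Exc P e.1 e.2 ∧ (ht x : ℝ) ≤ Real.exp t} := by
          ext x
          have hx : (0 : ℝ) < (ht x : ℝ) := lt_of_lt_of_le one_pos (hpos x)
          exact and_congr_right fun _ => Real.log_le_iff_le_exp hx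
        rw [hset]
        refine ⟨h1, h2.trans (le_of_eq ?_)⟩
        rw [← Real.exp_mul]
        congr 2
        ring
      exact dim_le (Exc P e.1 e.2) (fun x => Real.log (ht x : ℝ))
        (fun x _ => Real.log_nonneg (hpos x)) (by positivity) hτ hcnt s
    · simp
  refine ⟨⋃ e, G e, ?_, fun y hy A₀ B₀ h0 => ?_⟩
  · rw [dimH_iUnion]
    exact iSup_le hdim
  · rw [Set.mem_iUnion] at hy
    push Not at hy
    have h2 := hy (A₀, B₀)
    rw [hG, if_pos h0] at h2
    have h3 : {x : ℚ | x ∈ Exc P A₀ B₀ ∧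
          dist y (s x) ≤ Real.exp (-(τ * Real.log (ht x : ℝ)))}.Finite := by
      by_contra h4
      exact h2 h4
    obtain ⟨T, hT⟩ := Set.Finite.bddAbove (h3.image (fun x : ℚ => (ht x : ℝ)))
    refine ⟨T, fun A B hAB hlt hd p hp hPp hcon => ?_⟩
    refine absurd (hT ?_) (not_le.2 hlt)
    refine ⟨jInvariant A B, ⟨⟨A, B, hAB, rfl, p, hp, hPp, hcon⟩, ?_⟩, rfl⟩
    refine hd.trans (le_of_eq ?_)
    rw [Real.rpow_def_of_pos (lt_of_lt_of_le one_pos (hpos _))]
    congr 1
    ring

end Pool.Agent.Results.MP_a60a76_nt.InvariantsNearTargets
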