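import Pool.Agent.X295.GalJ

/-!
# MP_a60a76_nt: pairs of families of elliptic curves with several parameters

Let `N ≥ 13`.  For almost all pairs of members of two families of elliptic curves over `ℚ` no congruence modulo
ANY prime `p ≥ N` exists:

(1) Let `j₁ = F₁/G₁` and `j₂ = F₂/G₂` be two rational functions of `q` variables with different poles: one of them
has a pole along an irreducible hypersurface along which the other one has no pole.  For all but
`O(H^(q - 1 + δ / N + ε))` of the `≍ H^q` integral vectors `u`, `|u_j| ≤ H`, no elliptic curve with the invariant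
`j₁(u)` has the same `p`-division field, `p ≥ N` a prime, as an elliptic curve with the invariant `j₂(u)`
(`δ` is the maximum of the degrees of `G₁`, `G₂`).

(2) Let `j₁ = F₁/G₁` (`q` variables, not a polynomial) and `j₂ = F₂/G₂` (`r` variables) be arbitrary, for
example `j₂ = j₁`.  For all but `O(H^(q + r - 1 + deg G₁ / N + ε))` of the `≍ H^(q + r)` pairs of integral vectors
`u`, `v` the same holds for the invariants `j₁(u)` and `j₂(v)`.

Curves which are `p`-congruent have the same `p`-division field.  The statements hold more generally for all elliptic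
curves over all number fields of degree at most `n` with these invariants, if `n < N`, `8n < N² - 1`.

Proof. At the primes `l` at which the irreducible polynomial `g` of a pole of `j₁` is small, but its eliminant is
a unit, `j₂` is integral and the valuation of `j₁` is `- μ` times that of `g`.  If the division fields are the same
then this valuation is divisible by `p` (the local theorem of `Pool.Agent.Y673.FM`).  So the value of `g` is a
`p`-th power up to divisors of a power of the eliminant, and these values are few, uniformly on all lines in a given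
direction.
-/

set_option autoImplicit false

open WeierstrassCurve NumberField
open scoped Classical

namespace Pool.Agent.Results.MP_a60a76_nt.MultiParameterPairs

section
variable {L : Type} [Field L]

/-- The curve `y² = x³ + Ax + B` over `L`. -/
def curve (A B : L) : WeierstrassCurve L := ⟨0, 0, 0, A, B⟩

/-- The group of its points over the algebraic closure of `L`. -/
abbrev Points (A B : L) : Type := ((curve A B).baseChange (AlgebraicClosure L)).toAffine.Point

/-- The action of an `L`-automorphism `σ` of the algebraic closure on the points. -/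
noncomputable def galois (A B : L) (σ : AlgebraicClosure L ≃ₐ[L] AlgebraicClosure L) :
    Points A B →+ Points A B :=
  WeierstrassCurve.Affine.Point.map (σ : AlgebraicClosure L →ₐ[L] AlgebraicClosure L)

/-- The curves `y² = x³ + Ax + B` and `y² = x³ + A'x + B'` have the same `p`-division field: an
automorphism fixes all points killed by `p` of the first if and only if it fixes all points killed
by `p` of the second (this is so if the curves are `p`-congruent). -/
def SameDivisionField (p : ℕ) (A B A' B' : L) : Prop :=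
  ∀ σ : AlgebraicClosure L ≃ₐ[L] AlgebraicClosure L,
    (∀ P : Points A B, p • P = 0 → galois A B σ P = P) ↔
      (∀ P : Points A' B', p • P = 0 → galois A' B' σ P = P)

/-- The invariant of `y² = x³ + Ax + B`. -/
noncomputable def jInvariant (A B : L) : L := 6912 * A ^ 3 / (4 * A ^ 3 + 27 * B ^ 2)

end

/-- `j₁` and `j₂` are the invariants of two elliptic curves over a number field of degree at most `n`
which have the same `p`-division field for some prime `p ≥ N`. -/
def Related (n N : ℕ) (j₁ j₂ : ℚ) : Prop :=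
  ∃ (L : Type) (_ : Field L) (_ : NumberField L), Module.finrank ℚ L ≤ n ∧
    ∃ A B A' B' : L, 4 * A ^ 3 + 27 * B ^ 2 ≠ 0 ∧ 4 * A' ^ 3 + 27 * B' ^ 2 ≠ 0 ∧
      jInvariant A B = (j₁ : L) ∧ jInvariant A' B' = (j₂ : L) ∧
      ∃ p : ℕ, p.Prime ∧ N ≤ p ∧ SameDivisionField p A B A' B'

/-- The rational function `F / G` has a pole along the hypersurface `g = 0`, `g` irreducible. -/
def PoleAlong {q : ℕ} (g F G : MvPolynomial (Fin q) ℚ) : Prop :=
  ∃ m : ℕ, g ^ m ∣ G ∧ ¬ g ^ m ∣ F

/-- The value of a polynomial at an integral vector. -/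
noncomputable def value {q : ℕ} (F : MvPolynomial (Fin q) ℚ) (u : Fin q → ℤ) : ℚ :=
  MvPolynomial.eval (fun j => (u j : ℚ)) F

/-- The parameters `u` in the box `|u_j| ≤ H` such that `j₁(u)` and `j₂(u)` are related. -/
def Exceptions {q : ℕ} (F₁ G₁ F₂ G₂ : MvPolynomial (Fin q) ℚ) (n N H : ℕ) : Set (Fin q → ℤ) :=
  {u | (∀ j, |u j| ≤ H) ∧ value G₁ u ≠ 0 ∧ value G₂ u ≠ 0 ∧
    Related n N (value F₁ u / value G₁ u) (value F₂ u / value G₂ u)}

/-- The pairs of parameters `(u, v)` in the box `|u_j|, |v_j| ≤ H` such that `j₁(u)` and `j₂(v)` are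
related. -/
def PairExceptions {q r : ℕ} (F₁ G₁ : MvPolynomial (Fin q) ℚ) (F₂ G₂ : MvPolynomial (Fin r) ℚ)
    (n N H : ℕ) : Set ((Fin q → ℤ) × (Fin r → ℤ)) :=
  {u | (∀ j, |u.1 j| ≤ H) ∧ (∀ j, |u.2 j| ≤ H) ∧ value G₁ u.1 ≠ 0 ∧ value G₂ u.2 ≠ 0 ∧
    Related n N (value F₁ u.1 / value G₁ u.1) (value F₂ u.2 / value G₂ u.2)}

theorem related_symm {n N : ℕ} {j₁ j₂ : ℚ} (h : Related n N j₁ j₂) : Related n N j₂ j₁ := by
  obtain ⟨L, iF, iN, h1, A, B, A', B', h2, h3, h4, h5, p, h6, h7, h8⟩ := h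
  exact ⟨L, iF, iN, h1, A', B', A, B, h3, h2, h5, h4, p, h6, h7, fun σ => (h8 σ).symm⟩

theorem one_side (q : ℕ) (F₁ G₁ F₂ G₂ : MvPolynomial (Fin q) ℚ) (h₁ : G₁ ≠ 0) (h₂ : G₂ ≠ 0)
    (g : MvPolynomial (Fin q) ℚ) (hg : Irreducible g) (hp : PoleAlong g F₁ G₁)
    (hp' : ¬ PoleAlong g F₂ G₂) (n N : ℕ) (hN : 13 ≤ N) (hn : n < N) (hn' : 8 * n < N ^ 2 - 1)
    (ε : ℝ) (hε : 0 < ε) : ∃ C : ℝ, ∀ H : ℕ, 1 ≤ H → (Exceptions F₁ G₁ F₂ G₂ n N H).Finite ∧
      ((Exceptions F₁ G₁ F₂ G₂ n N H).ncard : ℝ) ≤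
        C * (H : ℝ) ^ ((q : ℝ) - 1 + G₁.totalDegree / N + ε) := by
  obtain ⟨C, hC⟩ := Pool.Agent.X295.Gal.mainC hg h₁ h₂ hp hp' n N hN hn hn' ε hε
  rw [Module.finrank_self, one_mul] at hC
  refine ⟨C, fun H hH => hC H hH _ ?_⟩
  rintro u ⟨h1, h3, h4, L, iF, iN, h5, A, B, A', B', h6, h7, h8, h9, h10⟩
  refine ⟨h1, h3, L, iF, iN, inferInstance, h5, A, B, A', B', h6, h7, ?_, ?_, h10⟩
  · rw [eq_ratCast]
    exact h8
  · rw [eq_ratCast]
    exact h9

/-- **Few congruences in pairs of families with several parameters.** -/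
theorem result (n N : ℕ) (hN : 13 ≤ N) (hn : n < N) (hn' : 8 * n < N ^ 2 - 1) (ε : ℝ)
    (hε : 0 < ε) :
    (∀ (q : ℕ) (F₁ G₁ F₂ G₂ : MvPolynomial (Fin q) ℚ), G₁ ≠ 0 → G₂ ≠ 0 →
      (∃ g : MvPolynomial (Fin q) ℚ, Irreducible g ∧ ¬ (PoleAlong g F₁ G₁ ↔ PoleAlong g F₂ G₂)) →
      ∃ C : ℝ, ∀ H : ℕ, 1 ≤ H → (Exceptions F₁ G₁ F₂ G₂ n N H).Finite ∧
        ((Exceptions F₁ G₁ F₂ G₂ n N H).ncard : ℝ) ≤
          C * (H : ℝ) ^ ((q : ℝ) - 1 + (max G₁.totalDegree G₂.totalDegree : ℕ) / N + ε)) ∧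
    (∀ (q r : ℕ) (F₁ G₁ : MvPolynomial (Fin q) ℚ) (F₂ G₂ : MvPolynomial (Fin r) ℚ), G₁ ≠ 0 →
      G₂ ≠ 0 → ¬ G₁ ∣ F₁ →
      ∃ C : ℝ, ∀ H : ℕ, 1 ≤ H → (PairExceptions F₁ G₁ F₂ G₂ n N H).Finite ∧
        ((PairExceptions F₁ G₁ F₂ G₂ n N H).ncard : ℝ) ≤
          C * (H : ℝ) ^ ((q : ℝ) + r - 1 + G₁.totalDegree / N + ε)) := by
  constructor
  · intro q F₁ G₁ F₂ G₂ h₁ h₂ hg
    obtain ⟨g, hg, hiff⟩ := hg
    have hN' : (0 : ℝ) < N := by exact_mod_cast (by omega : 0 < N)
    have key : ∀ (C : ℝ) (H d : ℕ), 1 ≤ H → d ≤ max G₁.totalDegree G₂.totalDegree →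
        C * (H : ℝ) ^ ((q : ℝ) - 1 + d / N + ε) ≤ |C| * (H : ℝ) ^ ((q : ℝ) - 1 +
          (max G₁.totalDegree G₂.totalDegree : ℕ) / N + ε) := by
      intro C H d hH hd
      have hH1 : (1 : ℝ) ≤ H := by exact_mod_cast hH
      calc _ ≤ |C| * (H : ℝ) ^ ((q : ℝ) - 1 + d / N + ε) :=
            mul_le_mul_of_nonneg_right (le_abs_self _) (by positivity)
        _ ≤ _ := by
            refine mul_le_mul_of_nonneg_left ?_ (abs_nonneg _)
            refine Real.rpow_le_rpow_of_exponent_le hH1 ?_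
            have : (d : ℝ) ≤ ((max G₁.totalDegree G₂.totalDegree : ℕ) : ℝ) := by exact_mod_cast hd
            have := div_le_div_of_nonneg_right this hN'.le
            linarith
    by_cases hp : PoleAlong g F₁ G₁
    · have hp' : ¬ PoleAlong g F₂ G₂ := fun h => hiff ⟨fun _ => h, fun _ => hp⟩
      obtain ⟨C, hC⟩ := one_side q F₁ G₁ F₂ G₂ h₁ h₂ g hg hp hp' n N hN hn hn' ε hε
      refine ⟨|C|, fun H hH => ⟨(hC H hH).1, (hC H hH).2.trans ?_⟩⟩
      exact key C H _ hH (le_max_left _ _)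
    · have hp' : PoleAlong g F₂ G₂ := by
        by_contra h
        exact hiff ⟨fun h' => absurd h' hp, fun h' => absurd h' h⟩
      obtain ⟨C, hC⟩ := one_side q F₂ G₂ F₁ G₁ h₂ h₁ g hg hp' hp n N hN hn hn' ε hε
      refine ⟨|C|, fun H hH => ?_⟩
      have he : Exceptions F₁ G₁ F₂ G₂ n N H = Exceptions F₂ G₂ F₁ G₁ n N H := by
        ext u
        exact ⟨fun ⟨a, b, c, d⟩ => ⟨a, c, b, related_symm d⟩,
          fun ⟨a, b, c, d⟩ => ⟨a, c, b, related_symm d⟩⟩
      rw [he]
      exact ⟨(hC H hH).1, (hC H hH).2.trans (key C H _ hH (le_max_right _ _))⟩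
  · intro q r F₁ G₁ F₂ G₂ h₁ h₂ hdvd
    obtain ⟨C, -, hC⟩ := Pool.Agent.X295.Gal.mainP F₁ G₁ F₂ G₂ h₁ h₂ hdvd n N hN hn hn' ε hε
    rw [Module.finrank_self, one_mul] at hC
    refine ⟨C, fun H hH => hC H hH _ ?_⟩
    rintro u ⟨h1, h1', h3, h4, L, iF, iN, h5, A, B, A', B', h6, h7, h8, h9, h10⟩
    refine ⟨h1, h1', h3, L, iF, iN, inferInstance, h5, A, B, A', B', h6, h7, ?_, ?_, h10⟩
    · rw [eq_ratCast]
      exact h8
    · rw [eq_ratCast]
      exact h9

end Pool.Agent.Results.MP_a60a76_nt.MultiParameterPairs
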