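import Mathlib
import Pool.Agent.X286.Win.Cond
import Pool.Agent.Results.MP_a60a76_nt.ConductorOrderedPairs

/-!
# The Frey-Mazur conjecture without exceptions for the curves whose conductor is in windows

The definitions are those of the starting file `ConductorOrderedPairs`: `curve A B` is `y ^ 2 = x ^ 3 + A x + B`,
`FullTwo` full rational two-torsion, `cond` the conductor (outside two), `cls` the isomorphism class,
`Congruent p A B A' B'` an isomorphism of the Galois modules of the points killed by `p`.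
-/

set_option autoImplicit false

namespace Pool.Agent.Results.MP_a60a76_nt.NoCongruencesInWindows

open MeasureTheory Filter Topology
open Pool.Agent.X286.Win.Cond (IsoClass condQ condQ_mk All sparse_prop finite_all sparse_all
  one_le_cond)
open Pool.Agent.Results.MP_a60a76_nt.ConductorOrderedPairs (curve FullTwo cond cls Congruent
  HasCompanion Exceptional)

/-- the exponent of convergence of the sequence `v` is at most `τ` -/
def ExpLe (v : ℕ → ℝ) (τ : ℝ) : Prop := ∀ t : ℝ, τ < t → Summable (fun n : ℕ => (v n) ^ (-t))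

/-- the classes with a companion -/
def Ex (δ : ℝ) : Set (IsoClass ℚ) :=
  {q | ∃ A B : ℚ, cls (curve A B) = q ∧ 4 * A ^ 3 + 27 * B ^ 2 ≠ 0 ∧ FullTwo (curve A B) ∧
    HasCompanion (cond (curve A B) ^ (1 + δ)) A B}

theorem disc_ne {A B : ℚ} (h : 4 * A ^ 3 + 27 * B ^ 2 ≠ 0) : (curve A B).Δ ≠ 0 := by
  unfold curve
  simp only [WeierstrassCurve.Δ, WeierstrassCurve.b₂, WeierstrassCurve.b₄, WeierstrassCurve.b₆,
    WeierstrassCurve.b₈]
  intro h0
  apply h
  linarith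

theorem ex_sub (δ : ℝ) : Ex δ ⊆ All ℚ := by
  rintro q ⟨A, B, h1, h2, h3, -⟩
  exact ⟨curve A B, h1, disc_ne h2, h3⟩

theorem sparse_ex : ∃ ν δ : ℝ, 0 < ν ∧ ν ≤ 2 / 3 ∧ 0 < δ ∧
    Pool.Agent.X286.Win.Sparse (Ex δ) condQ (2 / 3 - ν) := by
  obtain ⟨-, ν₀, δ, X₁, hν₀, hδ, h⟩ := ConductorOrderedPairs.result
  obtain ⟨ν, hν⟩ : ∃ ν, ν = min ν₀ (2 / 3) := ⟨_, rfl⟩
  have hν1 : ν ≤ ν₀ := by rw [hν]; exact min_le_left _ _
  have hν2 : ν ≤ 2 / 3 := by rw [hν]; exact min_le_right _ _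
  refine ⟨ν, δ, by rw [hν]; exact lt_min hν₀ (by norm_num), hν2, hδ, ?_⟩
  refine sparse_prop (ex_sub δ) (X₁ := max X₁ 1) hν2 fun X hX => ?_
  have hX1 : X₁ ≤ X := (le_max_left _ _).trans hX
  have hX2 : 1 ≤ X := (le_max_right _ _).trans hX
  have hsub : {q | q ∈ Ex δ ∧ condQ q ≤ X} ⊆ Exceptional δ X := by
    rintro q ⟨⟨A, B, h1, h2, h3, A', B', h4, h5, h6, h7⟩, h8⟩
    rw [condQ_mk h1] at h8
    refine ⟨A, B, h1, h2, h3, h8, A', B', h4, h5, h6.trans ?_, h7⟩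
    exact Real.rpow_le_rpow (le_trans zero_le_one (one_le_cond _)) h8 (by linarith)
  have hfin : (Exceptional δ X).Finite := by
    refine (finite_all ℚ X).subset ?_
    rintro q ⟨A, B, h1, h2, h3, h4, -⟩
    exact ⟨⟨curve A B, h1, disc_ne h2, h3⟩, by rw [condQ_mk h1]; exact h4⟩
  have h9 : (({q | q ∈ Ex δ ∧ condQ q ≤ X}.ncard : ℕ) : ℝ) ≤ ((Exceptional δ X).ncard : ℝ) := by
    exact_mod_cast Set.ncard_le_ncard hsub hfin
  refine h9.trans ((h X hX1).trans ?_)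
  exact mul_le_mul_of_nonneg_right (Real.rpow_le_rpow_of_exponent_le hX2 (by linarith))
    (Nat.cast_nonneg _)

/-- There are `ν, δ > 0` such that for all sequences `v n ≥ 1` of exponent of convergence at most `τ ≥ 0` and all
`θ < 1`:
(1) for all `a > 0` outside a set of Hausdorff dimension at most `(2/3 - ν + τ) / (1 - θ)` and all but finitely many
`n`, EVERY elliptic curve `E : y ^ 2 = x ^ 3 + A x + B` over `ℚ` with full rational two-torsion and
`|cond E - a v n| ≤ (v n) ^ θ`, of whatever height, has the following property: every elliptic curve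
`E' : y ^ 2 = x ^ 3 + A' x + B'` over `ℚ` with full two-torsion and conductor at most `(cond E) ^ (1 + δ)` which is
`p`-congruent to `E` for some prime `p ≥ 13` is isomorphic to `E`;
(2) for all `a > 0` outside a set of dimension at most `(2/3 + τ) / (1 - θ)` and all but finitely many `n` there is no
elliptic curve over `ℚ` with full two-torsion and `|cond E - a v n| ≤ (v n) ^ θ`.
(3), (4) The powers of `n + 1` and the geometric progressions are examples of `v`. -/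
theorem result :
    (∃ ν δ : ℝ, 0 < ν ∧ ν ≤ 2 / 3 ∧ 0 < δ ∧
      ∀ (v : ℕ → ℝ) (τ θ : ℝ), (∀ n, 1 ≤ v n) → 0 ≤ τ → ExpLe v τ → θ < 1 →
      ∃ X : Set ℝ, dimH X ≤ ENNReal.ofReal ((2 / 3 - ν + τ) / (1 - θ)) ∧
        ∀ a : ℝ, 0 < a → a ∉ X → ∃ n₀ : ℕ, ∀ n : ℕ, n₀ ≤ n → ∀ A B : ℚ,
          4 * A ^ 3 + 27 * B ^ 2 ≠ 0 → FullTwo (curve A B) →
          |cond (curve A B) - a * v n| ≤ (v n) ^ θ →
          ∀ A' B' : ℚ, 4 * A' ^ 3 + 27 * B' ^ 2 ≠ 0 → FullTwo (curve A' B') →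
            cond (curve A' B') ≤
              cond (curve A B) ^ (1 + δ) →
            ∀ p : ℕ, p.Prime → 13 ≤ p → Congruent p A B A' B' →
              cls (curve A' B') = cls (curve A B)) ∧
    (∀ (v : ℕ → ℝ) (τ θ : ℝ), (∀ n, 1 ≤ v n) → 0 ≤ τ → ExpLe v τ → θ < 1 →
      ∃ X : Set ℝ, dimH X ≤ ENNReal.ofReal ((2 / 3 + τ) / (1 - θ)) ∧
        ∀ a : ℝ, 0 < a → a ∉ X → ∃ n₀ : ℕ, ∀ n : ℕ, n₀ ≤ n → ∀ A B : ℚ,
          4 * A ^ 3 + 27 * B ^ 2 ≠ 0 → FullTwo (curve A B) →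
          (v n) ^ θ < |cond (curve A B) - a * v n|) ∧
    (∀ b : ℝ, 0 < b → ExpLe (fun n : ℕ => ((n : ℝ) + 1) ^ b) (1 / b)) ∧
    (∀ b : ℝ, 1 < b → ExpLe (fun n : ℕ => b ^ n) 0) := by
  refine ⟨?_, ?_, fun b hb => Pool.Agent.Y854.GM.expLe_pow b hb,
    fun b hb => Pool.Agent.Y854.GM.expLe_geom b hb⟩
  · obtain ⟨ν, δ, hν0, hν1, hδ, hS⟩ := sparse_ex
    refine ⟨ν, δ, hν0, hν1, hδ, fun v τ θ hv hτ hE hθ => ?_⟩
    obtain ⟨X, h1, h2⟩ := Pool.Agent.Y854.GM.windows (Ex δ) condQ hv hτ hE (by linarith) hθ hS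
    refine ⟨X, h1, fun a ha haX => ?_⟩
    obtain ⟨n₀, hn⟩ := h2 a ha haX
    refine ⟨n₀, fun n hn1 A B hD hF hw A' B' hD' hF' hc p hp h13 hcong => ?_⟩
    by_contra hcon
    have h4 := hn n hn1 (cls (curve A B)) ⟨A, B, rfl, hD, hF, A', B', hD', hF', hc, hcon, p, hp,
      h13, hcong⟩
    have h5 : condQ (cls (curve A B)) = cond (curve A B) := condQ_mk rfl
    rw [h5] at h4
    exact absurd h4 (not_lt.2 hw)
  · intro v τ θ hv hτ hE hθ
    obtain ⟨X, h1, h2⟩ := Pool.Agent.Y854.GM.windows (All ℚ) condQ hv hτ hE (by norm_num) hθ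
      (sparse_all ℚ)
    refine ⟨X, h1, fun a ha haX => ?_⟩
    obtain ⟨n₀, hn⟩ := h2 a ha haX
    refine ⟨n₀, fun n hn1 A B hD hF => ?_⟩
    have h4 := hn n hn1 (cls (curve A B)) ⟨curve A B, rfl, disc_ne hD, hF⟩
    have h5 : condQ (cls (curve A B)) = cond (curve A B) := condQ_mk rfl
    rwa [h5] at h4

end Pool.Agent.Results.MP_a60a76_nt.NoCongruencesInWindows
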